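import Pool.Agent.Helper62.GX.Stm

/-!
# The Hasse-Witt functionals of an arbitrary cyclic cover are independent

The proof is that of `Pool/Agent/Helper18/CX/HR.lean` (helper18) with several factors.
-/

set_option autoImplicit false

open Polynomial Matrix Finset

namespace Pool.Agent.Helper93.GX

open Pool.Agent.Helper62.BM Pool.Agent.Helper62.BW Pool.Agent.Helper62.CX Pool.Agent.Helper62.GX

/-- powers of `a` divide the solutions -/
lemma dvd_ode {K : Type} [Field K] {a b R : K[X]} (m r : ℕ) (ha : a ≠ 0)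
    (hco : IsCoprime a (derivative a * b)) {A : K[X]}
    (hode : (m : K[X]) * (a * b) * derivative A +
      ((r : K[X]) * derivative a * b + a * R) * A = 0) :
    ∀ s : ℕ, (∀ t < s, ((m * t + r : ℕ) : K) ≠ 0) → a ^ s ∣ A := by
  intro s
  induction s with
  | zero => intro _; simp
  | succ s ih =>
    intro hs
    obtain ⟨B, rfl⟩ := ih fun t ht => hs t (by omega)
    have h1 : a * derivative (a ^ s) = (s : K[X]) * a ^ s * derivative a := by
      rw [derivative_pow]
      rcases Nat.eq_zero_or_pos s with h0 | h0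
      · subst h0
        simp
      · obtain ⟨u, rfl⟩ : ∃ u, s = u + 1 := ⟨s - 1, by omega⟩
        have e6 : (Polynomial.C ((u + 1 : ℕ) : K) : K[X]) = ((u + 1 : ℕ) : K[X]) :=
          map_natCast _ _
        rw [e6, Nat.add_sub_cancel]
        ring
    rw [derivative_mul] at hode
    have h2 : a ^ s * (((m * s + r : ℕ) : K[X]) * (derivative a * b * B) +
        a * ((m : K[X]) * b * derivative B + R * B)) = 0 := by
      push_cast
      linear_combination hode - (m : K[X]) * b * B * h1
    have h3 := (mul_eq_zero.mp h2).resolve_left (pow_ne_zero _ ha)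
    have h4 : a ∣ ((m * s + r : ℕ) : K[X]) * (derivative a * b * B) := by
      refine ⟨-((m : K[X]) * b * derivative B + R * B), ?_⟩
      linear_combination h3
    have h5 : IsUnit ((m * s + r : ℕ) : K[X]) := by
      have e6 : (Polynomial.C ((m * s + r : ℕ) : K) : K[X]) = ((m * s + r : ℕ) : K[X]) :=
        map_natCast _ _
      rw [← e6]
      exact isUnit_C.mpr (hs s (Nat.lt_succ_self s)).isUnit
    have h6 : a ∣ derivative a * b * B := (h5.dvd_mul_left).mp h4
    have h7 : a ∣ B := hco.dvd_of_dvd_mul_left h6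
    rw [pow_succ]
    exact mul_dvd_mul_left _ h7

section

variable {ι : Type} [Fintype ι] [DecidableEq ι]

/-- the logarithmic derivative of a product of powers -/
lemma prod_mul_derivative {K : Type} [Field K] (a : ι → K[X]) (q : ι → ℕ) :
    (∏ l, a l) * derivative (∏ l, a l ^ q l) =
      (∏ l, a l ^ q l) * LamG q a (fun l => derivative (a l)) := by
  have hder : ∀ (h : K[X]) (s : ℕ),
      h * derivative (h ^ s) = (s : K[X]) * h ^ s * derivative h := by
    intro h s
    rw [derivative_pow]
    rcases Nat.eq_zero_or_pos s with h0 | h0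
    · subst h0
      simp
    · obtain ⟨u, rfl⟩ : ∃ u, s = u + 1 := ⟨s - 1, by omega⟩
      have e6 : (Polynomial.C ((u + 1 : ℕ) : K) : K[X]) = ((u + 1 : ℕ) : K[X]) :=
        map_natCast _ _
      rw [e6, Nat.add_sub_cancel]
      ring
  rw [Polynomial.derivative_prod_finset, LamG, Finset.mul_sum, Finset.mul_sum]
  refine Finset.sum_congr rfl fun l _ => ?_
  rw [← Finset.mul_prod_erase univ a (mem_univ l),
    ← Finset.mul_prod_erase univ (fun l => a l ^ q l) (mem_univ l)]
  linear_combination (∏ j ∈ univ.erase l, a j) * (∏ j ∈ univ.erase l, a j ^ q j) * hder (a l) (q l)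

lemma lam_split {K : Type} [Field K] (a a' : ι → K[X]) (ρ : ι → ℕ) (l : ι) :
    ∃ R, LamG ρ a a' = (ρ l : K[X]) * a' l * ∏ j ∈ univ.erase l, a j + a l * R := by
  have h1 : a l ∣ ∑ i ∈ univ.erase l, (ρ i : K[X]) * a' i * ∏ j ∈ univ.erase i, a j := by
    refine Finset.dvd_sum fun i hi => Dvd.dvd.mul_left ?_ _
    exact Finset.dvd_prod_of_mem _ (mem_erase.2 ⟨(mem_erase.1 hi).1.symm, mem_univ l⟩)
  obtain ⟨R, hR⟩ := h1
  refine ⟨R, ?_⟩
  rw [LamG, ← Finset.add_sum_erase univ _ (mem_univ l), hR]

theorem core {K : Type} [Field K] (p : ℕ) [Fact p.Prime] [CharP K p] (m k N d e : ℕ)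
    (ρ nd : ι → ℕ) (hpk : p = m * k + 1) (hρm : ∀ l, 0 < ρ l ∧ ρ l < m) (hd : 1 ≤ d)
    (hρ : ∑ l, ρ l * nd l = m * d + e) (hN : N + 1 = ∑ l, nd l)
    (a : ι → K[X]) (ha : ∀ l, (a l).natDegree = nd l) (hsep : (∏ l, a l).Separable)
    (P : K[X]) (hP' : derivative P = 0) (hPd : P.natDegree + p ≤ p * d)
    (hΛ : ∀ l < N, (X ^ l * ((∏ j, a j ^ (ρ j * k)) * P)).coeff (p * d - 1) = 0) :
    P = 0 := by
  have hp : p.Prime := Fact.out
  have hp0 : 0 < p := hp.pos
  have hab : ∏ l, a l ≠ 0 := hsep.ne_zero
  have ha0 : ∀ l, a l ≠ 0 := fun l => Finset.prod_ne_zero_iff.mp hab l (mem_univ l)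
  have hk0 : 0 < k := by
    rcases Nat.eq_zero_or_pos k with h0 | h0
    · rw [h0, mul_zero] at hpk
      have := hp.two_le
      omega
    · exact h0
  have hsepl : ∀ l, (a l * ∏ j ∈ univ.erase l, a j).Separable := by
    intro l
    rw [Finset.mul_prod_erase univ a (mem_univ l)]
    exact hsep
  have hcl : ∀ l, IsCoprime (a l) (derivative (a l) * ∏ j ∈ univ.erase l, a j) := fun l =>
    IsCoprime.mul_right (hsepl l).of_mul_left (hsepl l).isCoprime
  have hcop : ∀ i j, i ≠ j → IsCoprime (a i) (a j) := by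
    intro i j hij
    exact IsCoprime.of_isCoprime_of_dvd_right (hsepl i).isCoprime
      (Finset.dvd_prod_of_mem _ (mem_erase.2 ⟨hij.symm, mem_univ j⟩))
  set n := p * d with hn
  have hpn : p ∣ n := dvd_mul_right _ _
  have hn0 : 0 < n := Nat.mul_pos hp0 hd
  set F : K[X] := ∏ j, a j ^ (ρ j * k) with hF
  have hFne : F ≠ 0 := Finset.prod_ne_zero_iff.mpr fun l _ => pow_ne_zero _ (ha0 l)
  have hFd : F.natDegree = k * (m * d + e) := by
    rw [hF, natDegree_prod _ _ fun l _ => pow_ne_zero _ (ha0 l), ← hρ, Finset.mul_sum]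
    refine Finset.sum_congr rfl fun l _ => ?_
    rw [natDegree_pow, ha]
    ring
  have hFd' : F.natDegree + d = p * d + k * e := by
    rw [hFd, hpk]
    ring
  have hdN : d ≤ N := by
    have h1 : m * d < m * (N + 1) := by
      have h2 : ∑ l, ρ l * nd l < ∑ l, m * nd l := by
        have h3 : ∃ l ∈ (univ : Finset ι), nd l ≠ 0 := by
          by_contra hcon
          push Not at hcon
          rw [Finset.sum_eq_zero hcon] at hN
          omega
        obtain ⟨l, hl, h4⟩ := h3
        refine Finset.sum_lt_sum (fun i _ => Nat.mul_le_mul_right _ (hρm i).2.le) ⟨l, hl, ?_⟩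
        exact Nat.mul_lt_mul_of_pos_right (hρm l).2 (Nat.pos_of_ne_zero h4)
      rw [← Finset.mul_sum, ← hN] at h2
      omega
    have := Nat.lt_of_mul_lt_mul_left h1
    omega
  set G : K[X] := F * P with hG
  have hGd : G.natDegree ≤ F.natDegree + P.natDegree := natDegree_mul_le
  -- the differential equation
  have hmk : (m : K[X]) * (k : K[X]) = -1 := by
    have h0 : ((m * k + 1 : ℕ) : K[X]) = 0 := by
      rw [← hpk]
      exact CharP.cast_eq_zero _ p
    push_cast at h0
    linear_combination h0
  set Λ : K[X] := LamG ρ a (fun l => derivative (a l)) with hΛdef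
  have hLk : LamG (fun j => ρ j * k) a (fun l => derivative (a l)) = (k : K[X]) * Λ := by
    rw [hΛdef, LamG, LamG, Finset.mul_sum]
    refine Finset.sum_congr rfl fun l _ => ?_
    push_cast
    ring
  have hodeG : (m : K[X]) * (∏ l, a l) * derivative G + Λ * G = 0 := by
    have h1 := prod_mul_derivative a (fun j => ρ j * k)
    rw [hLk] at h1
    rw [hG, derivative_mul, hP', mul_zero, add_zero, hF]
    linear_combination (m : K[X]) * P * h1 + (∏ j, a j ^ (ρ j * k)) * P * Λ * hmk
  -- the two parts
  set A := G /ₘ X ^ n with hA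
  set R := G %ₘ X ^ n with hR
  have hGAR : R + X ^ n * A = G := modByMonic_add_div G (X ^ n)
  have hRn : ∀ t, n ≤ t → R.coeff t = 0 := by
    intro t ht
    apply coeff_eq_zero_of_degree_lt
    refine lt_of_lt_of_le (degree_modByMonic_lt G (monic_X_pow n)) ?_
    rw [degree_X_pow]
    exact_mod_cast ht
  have hRc : ∀ t, n ≤ t + N → R.coeff t = 0 := by
    intro t ht
    by_cases htn : n ≤ t
    · exact hRn t htn
    push Not at htn
    have h1 := hΛ (n - 1 - t) (by omega)
    rw [coeff_X_pow_mul', if_pos (by omega)] at h1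
    have h2 : n - 1 - (n - 1 - t) = t := by omega
    rw [h2, ← hGAR, coeff_add, coeff_X_pow_mul', if_neg (by omega), add_zero] at h1
    exact h1
  have hXn : derivative (X ^ n : K[X]) = 0 := by
    rw [derivative_X_pow, (CharP.cast_eq_zero_iff K p n).mpr hpn]
    simp
  set U : K[X] := (m : K[X]) * (∏ l, a l) * derivative A + Λ * A with hU
  set V : K[X] := (m : K[X]) * (∏ l, a l) * derivative R + Λ * R with hV
  have hUV : X ^ n * U + V = 0 := by
    rw [← hGAR, derivative_add, derivative_mul (f := X ^ n), hXn, zero_mul, zero_add] at hodeG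
    rw [hU, hV]
    linear_combination hodeG
  have hlamd : Λ.natDegree ≤ N := by
    have e1 : ∀ s : ℕ, (s : K[X]) = C (s : K) := fun s => (map_natCast C s).symm
    rw [hΛdef, LamG]
    refine natDegree_sum_le_of_forall_le _ _ fun l _ => ?_
    by_cases hna : nd l = 0
    · have : derivative (a l) = 0 := by
        rw [eq_C_of_natDegree_eq_zero ((ha l).trans hna), derivative_C]
      rw [this]
      simp
    · rw [mul_assoc, e1]
      refine (natDegree_C_mul_le _ _).trans (natDegree_mul_le.trans ?_)
      have h1 := natDegree_derivative_le (a l)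
      have h2 : (∏ j ∈ univ.erase l, a j).natDegree ≤ ∑ j ∈ univ.erase l, nd j := by
        refine (natDegree_prod_le _ _).trans (Finset.sum_le_sum fun j _ => (ha j).le)
      have h3 := Finset.add_sum_erase univ nd (mem_univ l)
      rw [ha] at h1
      omega
  have hVc : ∀ t, n ≤ t → V.coeff t = 0 := by
    intro t ht
    by_cases hR0 : R = 0
    · rw [hV, hR0]
      simp
    have hRd : R.natDegree + N < n := by
      by_contra hcon
      push Not at hcon
      exact hR0 (leadingCoeff_eq_zero.mp (hRc _ hcon))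
    have h1 : ((m : K[X]) * (∏ l, a l) * derivative R).natDegree ≤ R.natDegree + N := by
      by_cases hR1 : R.natDegree = 0
      · have : derivative R = 0 := by
          rw [eq_C_of_natDegree_eq_zero hR1, derivative_C]
        rw [this]
        simp
      · have e1 : (m : K[X]) = C (m : K) := (map_natCast C m).symm
        rw [mul_assoc, e1]
        refine (natDegree_C_mul_le _ _).trans (natDegree_mul_le.trans ?_)
        have h2 := natDegree_derivative_le R
        have h3 : (∏ l, a l).natDegree = ∑ l, nd l := by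
          rw [natDegree_prod _ _ fun l _ => ha0 l]
          exact Finset.sum_congr rfl fun l _ => ha l
        omega
    have h2 : (Λ * R).natDegree ≤ R.natDegree + N := by
      refine natDegree_mul_le.trans ?_
      omega
    have h3 : V.natDegree ≤ R.natDegree + N := (natDegree_add_le _ _).trans (max_le h1 h2)
    exact coeff_eq_zero_of_natDegree_lt (by omega)
  have hU0 : U = 0 := by
    ext t
    have h1 := congrArg (fun Q : K[X] => Q.coeff (t + n)) hUV
    simp only [coeff_add, coeff_zero] at h1
    rw [hVc (t + n) (by omega), add_zero, coeff_X_pow_mul] at h1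
    rw [h1, coeff_zero]
  -- divisibility
  have hnz : ∀ s, s < m → ∀ t < s * k, ((m * t + s : ℕ) : K) ≠ 0 := by
    intro s hs t ht h0
    rw [CharP.cast_eq_zero_iff K p] at h0
    have h1 : p ∣ (m * t + s) * k := Dvd.dvd.mul_right h0 k
    obtain ⟨u, hu⟩ : ∃ u, s * k = t + u := ⟨s * k - t, by omega⟩
    have h2 : (m * t + s) * k = p * t + u := by
      have : (m * t + s) * k = (m * k) * t + s * k := by ring
      rw [this, hu, hpk]
      ring
    rw [h2] at h1
    have h3 : p ∣ u := (Nat.dvd_add_right (dvd_mul_right p t)).mp h1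
    have h4 := Nat.le_of_dvd (by omega) h3
    have h5 : s * k ≤ m * k := Nat.mul_le_mul_right k hs.le
    omega
  have hA0 : A = 0 := by
    by_contra hA0
    have h1 : ∀ l, a l ^ (ρ l * k) ∣ A := by
      intro l
      obtain ⟨R', hR'⟩ := lam_split a (fun l => derivative (a l)) ρ l
      refine dvd_ode m (ρ l) (R := R') (ha0 l) (hcl l) ?_ _ (hnz (ρ l) (hρm l).2)
      rw [Finset.mul_prod_erase univ a (mem_univ l), ← hR', ← hΛdef]
      exact hU0
    have h3 : F ∣ A := by
      rw [hF]
      refine Finset.prod_dvd_of_coprime ?_ fun l _ => h1 l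
      intro i _ j _ hij
      exact (hcop i j hij).pow
    have h4 := natDegree_le_of_dvd h3 hA0
    have h5 : A.natDegree = G.natDegree - n := by
      rw [hA, natDegree_divByMonic G (monic_X_pow n), natDegree_X_pow]
    have h6 : n ≤ G.natDegree := by
      by_contra hcon
      push Not at hcon
      apply hA0
      rw [hA, divByMonic_eq_zero_iff (monic_X_pow n), degree_X_pow]
      refine lt_of_le_of_lt degree_le_natDegree ?_
      exact_mod_cast hcon
    omega
  by_contra hP0
  have hG0 : G ≠ 0 := mul_ne_zero hFne hP0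
  have h1 : G.natDegree = F.natDegree + P.natDegree := natDegree_mul hFne hP0
  rw [hA0, mul_zero, add_zero] at hGAR
  have h2 := hRc G.natDegree (by omega)
  rw [hGAR] at h2
  exact hG0 (leadingCoeff_eq_zero.mp h2)

end

/-- the target -/
theorem g_HWrank : G_HWrank := by
  intro ι _ _ F _ p _ _ m N ρ nd hmp hρm hnd hN hNp a ha hsep c hc
  have hp : p.Prime := Fact.out
  obtain ⟨k, hk⟩ := hmp
  have hne : Nonempty ι := by
    by_contra hcon
    rw [not_nonempty_iff] at hcon
    rw [Finset.univ_eq_empty, Finset.sum_empty] at hN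
    omega
  obtain ⟨l0⟩ := hne
  have hm0 : 0 < m := lt_of_lt_of_le (hρm l0).1 (hρm l0).2.le
  have hdiv : (p - 1) / m = k := by
    rw [hk]
    exact Nat.mul_div_cancel_left k hm0
  have hpk : p = m * k + 1 := by
    have := hp.two_le
    omega
  rw [hdiv] at hc
  obtain ⟨d, hd⟩ : ∃ d, d = dG m ρ nd := ⟨_, rfl⟩
  have hρ : ∑ l, ρ l * nd l = m * d + (∑ l, ρ l * nd l) % m := by
    rw [hd, dG]
    exact (Nat.div_add_mod _ _).symm
  revert c hc
  rw [← hd]
  intro c hc
  rcases Nat.eq_zero_or_pos d with hd0 | hd0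
  · subst hd0
    funext i
    exact i.elim0
  set P : F[X] := ∑ i : Fin d, monomial (p * (d - 1 - (i : ℕ))) (c i) with hP
  have hP' : derivative P = 0 := by
    rw [hP, derivative_sum]
    refine Finset.sum_eq_zero fun i _ => ?_
    rw [derivative_monomial]
    have : ((p * (d - 1 - (i : ℕ)) : ℕ) : F) = 0 :=
      (CharP.cast_eq_zero_iff F p _).mpr (dvd_mul_right _ _)
    rw [this, mul_zero, monomial_zero_right]
  have hPd : P.natDegree + p ≤ p * d := by
    have h1 : P.natDegree ≤ p * (d - 1) := by
      rw [hP]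
      refine natDegree_sum_le_of_forall_le _ _ fun i _ => ?_
      refine (natDegree_monomial_le _).trans ?_
      exact Nat.mul_le_mul_left p (by omega)
    have h2 : p * (d - 1) + p = p * d := by
      obtain ⟨g', rfl⟩ : ∃ g', d = g' + 1 := ⟨d - 1, by omega⟩
      rw [Nat.add_sub_cancel]
      ring
    omega
  have hΛ : ∀ l < N, (X ^ l * ((∏ j, a j ^ (ρ j * k)) * P)).coeff (p * d - 1) = 0 := by
    intro l hl
    have h1 := congrFun hc ⟨l, hl⟩
    rw [Matrix.vecMul, dotProduct] at h1
    simp only [YG, Matrix.of_apply, Pi.zero_apply] at h1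
    rw [← h1, hP, Finset.mul_sum, Finset.mul_sum, finsetSum_coeff]
    refine Finset.sum_congr rfl fun i _ => ?_
    have h2 : X ^ l * ((∏ j, a j ^ (ρ j * k)) * monomial (p * (d - 1 - (i : ℕ))) (c i)) =
        C (c i) * (X ^ (p * (d - 1 - (i : ℕ))) * (X ^ l * ∏ j, a j ^ (ρ j * k))) := by
      rw [← C_mul_X_pow_eq_monomial]
      ring
    rw [h2, coeff_C_mul, coeff_X_pow_mul']
    have h3 : p * (d - 1 - (i : ℕ)) + p * ((i : ℕ) + 1) = p * d := by
      rw [← mul_add]
      congr 1
      omega
    have h4 : 0 < p * ((i : ℕ) + 1) := Nat.mul_pos hp.pos (Nat.succ_pos _)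
    rw [if_pos (by omega)]
    congr 2
    omega
  have hP0 : P = 0 := core p m k N d _ ρ nd hpk hρm hd0 hρ hN a ha hsep P hP' hPd hΛ
  funext i
  have h1 : P.coeff (p * (d - 1 - (i : ℕ))) = c i := by
    rw [hP, finsetSum_coeff, Finset.sum_eq_single i]
    · rw [coeff_monomial, if_pos rfl]
    · intro b _ hb
      rw [coeff_monomial, if_neg]
      intro h
      apply hb
      have h5 := Nat.eq_of_mul_eq_mul_left hp.pos h
      ext
      omega
    · intro h
      exact absurd (Finset.mem_univ i) h
  rw [← h1, hP0, coeff_zero]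
  rfl

end Pool.Agent.Helper93.GX
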